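import Mathlib

section

/-! Cardinal tools: small subsets, closure, maximal families, delta systems. -/

namespace Pool.Agent.MP_c6cf52_lc.Sis

open Cardinal Set

universe u

variable {κ : Cardinal.{u}} {O : Type u}

/-- the standing hypothesis on the cardinal -/
structure Kap (κ : Cardinal.{u}) : Prop where
  reg : κ.IsRegular
  pw : ∀ θ < κ, κ ^ θ ≤ κ

theorem Kap.inf (h : Kap κ) : ℵ₀ ≤ κ := h.reg.aleph0_le

theorem Kap.leU (h : Kap κ) {ι : Type u} (hι : #ι ≤ κ) {f : ι → Set O} (hf : ∀ i, #(f i) ≤ κ) :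
    #(⋃ i, f i) ≤ κ :=
  (mk_iUnion_le f).trans ((mul_le_mul' hι (ciSup_le' hf)).trans (mul_eq_self h.inf).le)

theorem Kap.ltU (h : Kap κ) {ι : Type u} (hι : #ι < κ) {f : ι → Set O} (hf : ∀ i, #(f i) < κ) :
    #(⋃ i, f i) < κ := (card_iUnion_lt_iff_forall_of_isRegular h.reg hι).2 hf

theorem Kap.le2 (h : Kap κ) {s t : Set O} (hs : #s ≤ κ) (ht : #t ≤ κ) : #(s ∪ t : Set O) ≤ κ :=
  (mk_union_le s t).trans ((add_le_add hs ht).trans (add_eq_self h.inf).le)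

theorem Kap.lt2 (h : Kap κ) {s t : Set O} (hs : #s < κ) (ht : #t < κ) : #(s ∪ t : Set O) < κ :=
  (mk_union_le s t).trans_lt (add_lt_of_lt h.inf hs ht)

theorem Kap.lgD (h : Kap κ) {s t : Set O} (hs : κ < #s) (ht : #t ≤ κ) : κ < #(s \ t : Set O) :=
  lt_of_not_ge fun e => hs.not_ge
    ((mk_le_mk_of_subset (subset_sdiff_union s t)).trans (h.le2 e ht))

theorem Kap.geD (h : Kap κ) {s t : Set O} (hs : κ ≤ #s) (ht : #t < κ) : κ ≤ #(s \ t : Set O) :=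
  le_of_not_gt fun e => hs.not_gt
    ((mk_le_mk_of_subset (subset_sdiff_union s t)).trans_lt (h.lt2 e ht))

theorem Kap.ne (h : Kap κ) {s : Set O} (hs : κ ≤ #s) : s.Nonempty := by
  rw [← Set.nonempty_coe_sort, ← mk_ne_zero_iff]
  exact (h.reg.pos.trans_le hs).ne'

theorem Kap.fin (h : Kap κ) {s : Set O} (hs : s.Finite) : #s < κ :=
  hs.lt_aleph0.trans_le h.inf

theorem Kap.pig (h : Kap κ) {ι : Type u} (hι : #ι ≤ κ) {S : Set O} (hS : κ < #S)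
    {r : ι → O → Prop} (hr : ∀ x ∈ S, ∃ i, r i x) : ∃ i, κ < #{x | x ∈ S ∧ r i x} := by
  by_contra hn
  push Not at hn
  refine hS.not_ge ((mk_le_mk_of_subset fun x hx => ?_).trans (h.leU hι hn))
  obtain ⟨i, hi⟩ := hr x hx
  exact mem_iUnion.2 ⟨i, hx, hi⟩

/-- small subsets of a set -/
abbrev Sm (κ : Cardinal.{u}) (D : Set O) : Type u := {s : Set O // s ⊆ D ∧ #s < κ}

theorem iio_lt (k : κ.ord.ToType) : #(Iio k) < κ := by
  simpa using mk_Iio_lt k (by simp)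

theorem Kap.bdd (h : Kap κ) {s : Set κ.ord.ToType} (hs : #s < κ) : ∃ k, ∀ j ∈ s, j < k := by
  by_contra hn
  push Not at hn
  have e : (univ : Set κ.ord.ToType) ⊆ ⋃ j : s, Iio j.1 ∪ {j.1} := fun k _ => by
    obtain ⟨j, hj, hk⟩ := hn k
    exact mem_iUnion.2 ⟨⟨j, hj⟩, hk.lt_or_eq⟩
  have := (mk_le_mk_of_subset e).trans_lt
    (h.ltU hs fun j => h.lt2 (iio_lt _) (h.fin (finite_singleton _)))
  simp at this

theorem Kap.sm (h : Kap κ) {D : Set O} (hD : #D ≤ κ) : #(Sm κ D) ≤ κ := by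
  have e : {s : Set O | s ⊆ D ∧ #s < κ} ⊆
      ⋃ o : κ.ord.ToType, {s : Set O | s ⊆ D ∧ #s ≤ #(Iio o)} := by
    rintro s ⟨h1, h2⟩
    obtain ⟨T, -, hT⟩ := le_mk_iff_exists_subset.1
      (show #s ≤ #(univ : Set κ.ord.ToType) by simpa using h2.le)
    obtain ⟨k, hk⟩ := h.bdd (hT.trans_lt h2)
    exact mem_iUnion.2 ⟨k, h1, hT.ge.trans (mk_le_mk_of_subset hk)⟩
  refine (mk_le_mk_of_subset e).trans (h.leU (by simp) fun o => ?_)
  exact (mk_bounded_subset_le D _).trans ((power_le_power_right (max_le hD h.inf)).trans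
    (h.pw _ (iio_lt o)))

theorem Kap.closure (h : Kap κ) (F : Set O → Set O) (hF : ∀ s : Set O, #s < κ → #(F s) ≤ κ) :
    ∃ E : Set O, #E ≤ κ ∧ ∀ s ⊆ E, #s < κ → F s ⊆ E := by
  let G : κ.ord.ToType → Set O := (wellFounded_lt (α := κ.ord.ToType)).fix
    fun k ih => ⋃ s : Sm κ (⋃ j : Iio k, ih j.1 j.2), F s.1
  have hG : ∀ k, G k = ⋃ s : Sm κ (⋃ j : Iio k, G j.1), F s.1 := fun k =>
    (wellFounded_lt (α := κ.ord.ToType)).fix_eq _ k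
  have hc : ∀ k, #(G k) ≤ κ := fun k => by
    induction k using WellFoundedLT.induction with
    | ind k ih =>
      rw [hG]
      exact h.leU (h.sm (h.leU (iio_lt k).le fun j => ih j.1 j.2))
        fun s => hF _ s.2.2
  refine ⟨⋃ k, G k, h.leU (by simp) hc, fun s hs hl => ?_⟩
  choose f hf using fun x : s => mem_iUnion.1 (hs x.2)
  obtain ⟨k, hk⟩ := h.bdd (s := range f) (mk_range_le.trans_lt hl)
  refine subset_trans ?_ (subset_iUnion G k)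
  rw [hG]
  exact subset_iUnion_of_subset
    ⟨s, fun x hx => mem_iUnion.2 ⟨⟨f ⟨x, hx⟩, hk _ ⟨_, rfl⟩⟩, hf ⟨x, hx⟩⟩, hl⟩ subset_rfl

theorem exists_max {α : Type*} (S : Set α) (r : α → α → Prop) (hr : ∀ x y, r x y → r y x) :
    ∃ M ⊆ S, M.Pairwise r ∧ ∀ x ∈ S, (∀ y ∈ M, r x y) → x ∈ M := by
  obtain ⟨M, hM⟩ := zorn_subset {M | M ⊆ S ∧ M.Pairwise r} fun c hc hch =>
    ⟨⋃₀ c, ⟨sUnion_subset fun t ht => (hc ht).1,
      (pairwise_sUnion hch.directedOn).2 fun t ht => (hc ht).2⟩, fun s hs => subset_sUnion_of_mem hs⟩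
  refine ⟨M, hM.1.1, hM.1.2, fun x hx h => ?_⟩
  refine hM.2 (y := insert x M) ⟨insert_subset hx hM.1.1, ?_⟩ (subset_insert _ _) (mem_insert _ _)
  exact pairwise_insert.2 ⟨hM.1.2, fun y hy _ => ⟨h y hy, hr _ _ (h y hy)⟩⟩

theorem Kap.delta (h : Kap κ) {Γ : Set O} (hΓ : κ < #Γ) (e : O → Set O)
    (he : ∀ γ ∈ Γ, #(e γ) < κ) :
    ∃ r : Set O, #r < κ ∧ ∃ M ⊆ Γ, κ < #M ∧ ∀ a ∉ r, {γ | γ ∈ M ∧ a ∈ e γ}.Subsingleton := by
  choose M hM1 hM2 hM3 using fun s : Set O =>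
    exists_max Γ (fun x y => Disjoint (e x \ s) (e y \ s)) fun _ _ d => d.symm
  by_contra hn
  have hs : ∀ s : Set O, #s < κ → #(M s) ≤ κ := fun s hs => le_of_not_gt fun hl =>
    hn ⟨s, hs, M s, hM1 s, hl, fun a ha x hx y hy => by
      by_contra hxy
      exact disjoint_left.1 (hM2 s hx.1 hy.1 hxy) ⟨hx.2, ha⟩ ⟨hy.2, ha⟩⟩
  obtain ⟨E, hE, hcl⟩ := h.closure (fun s => ⋃ γ : M s, e γ) fun s hl =>
    h.leU (hs s hl) fun γ => (he _ (hM1 s γ.2)).le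
  obtain ⟨γ, hγ, hγ'⟩ := h.ne (h.lgD hΓ (h.leU (h.sm hE) fun s : Sm κ E => hs s.1 s.2.2)).le
  have hl : #(e γ ∩ E : Set O) < κ := (mk_le_mk_of_subset inter_subset_left).trans_lt (he γ hγ)
  refine hγ' (mem_iUnion.2 ⟨⟨e γ ∩ E, inter_subset_right, hl⟩, hM3 _ γ hγ fun y hy => ?_⟩)
  exact disjoint_left.2 fun a ha hb =>
    ha.2 ⟨ha.1, hcl _ inter_subset_right hl (mem_iUnion.2 ⟨⟨y, hy⟩, hb.1⟩)⟩

/-- a rectangle from two extension properties -/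
theorem Kap.rect (h : Kap κ) {X Y : Set O} (r : O → O → Prop)
    (hX : ∀ s ⊆ Y, #s < κ → κ ≤ #{a | a ∈ X ∧ ∀ b ∈ s, r a b})
    (hY : ∀ s ⊆ X, #s < κ → κ ≤ #{b | b ∈ Y ∧ ∀ a ∈ s, r a b}) :
    ∃ X' ⊆ X, ∃ Y' ⊆ Y, κ ≤ #X' ∧ κ ≤ #Y' ∧ ∀ a ∈ X', ∀ b ∈ Y', r a b := by
  obtain ⟨M, h1, h2, h3⟩ := exists_max {z : O × O | z.1 ∈ X ∧ z.2 ∈ Y ∧ r z.1 z.2}
    (fun z w => z.1 ≠ w.1 ∧ z.2 ≠ w.2 ∧ r z.1 w.2 ∧ r w.1 z.2)
    fun _ _ e => ⟨e.1.symm, e.2.1.symm, e.2.2.2, e.2.2.1⟩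
  have s1 : Prod.fst '' M ⊆ X := by rintro _ ⟨z, hz, rfl⟩; exact (h1 hz).1
  have s2 : Prod.snd '' M ⊆ Y := by rintro _ ⟨z, hz, rfl⟩; exact (h1 hz).2.1
  have hM : κ ≤ #M := le_of_not_gt fun hl => by
    have l1 : #(Prod.fst '' M) < κ := mk_image_le.trans_lt hl
    have l2 : #(Prod.snd '' M) < κ := mk_image_le.trans_lt hl
    obtain ⟨a, ⟨ha, ha1⟩, ha2⟩ := h.ne (h.geD (hX _ s2 l2) l1)
    obtain ⟨b, ⟨hb, hb1⟩, hb2⟩ := h.ne (h.geD (hY (Prod.fst '' M ∪ {a})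
      (union_subset s1 (singleton_subset_iff.2 ha)) (h.lt2 l1 (h.fin (finite_singleton _)))) l2)
    exact ha2 ⟨(a, b), h3 (a, b) ⟨ha, hb, hb1 a (Or.inr rfl)⟩ fun w hw =>
      ⟨fun e => ha2 ⟨w, hw, e.symm⟩, fun e => hb2 ⟨w, hw, e.symm⟩, ha1 _ ⟨w, hw, rfl⟩,
        hb1 _ (Or.inl ⟨w, hw, rfl⟩)⟩, rfl⟩
  refine ⟨_, s1, _, s2, ?_, ?_, ?_⟩
  · rw [mk_image_eq_of_injOn _ _ fun z hz w hw e => by
      by_contra hn
      exact (h2 hz hw hn).1 e]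
    exact hM
  · rw [mk_image_eq_of_injOn _ _ fun z hz w hw e => by
      by_contra hn
      exact (h2 hz hw hn).2.1 e]
    exact hM
  · rintro _ ⟨z, hz, rfl⟩ _ ⟨w, hw, rfl⟩
    by_cases e : z = w
    · exact e ▸ (h1 hz).2.2
    · exact (h2 hz hw e).2.2.1

theorem exists_mono {Ξ : Type u} [LinearOrder Ξ] [WellFoundedLT Ξ] [LinearOrder O]
    [WellFoundedLT O] {S : Set O} (h : Ordinal.type (α := Ξ) (· < ·) ≤ (#S).ord) :
    ∃ t : Ξ → O, StrictMono t ∧ ∀ x, t x ∈ S := by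
  obtain ⟨f⟩ := Ordinal.type_le_iff'.1 (h.trans (ord_le_type (α := S) (· < ·)))
  exact ⟨fun x => f x, fun x y e => f.map_rel_iff.2 e, fun x => (f x).2⟩

theorem exists_tall {Ξ : Type u} [LinearOrder Ξ] [WellFoundedLT Ξ] [LinearOrder O]
    [WellFoundedLT O] {S : Set O} (h : #Ξ < #S) : ∃ t : Ξ → O, StrictMono t ∧ ∀ x, t x ∈ S :=
  exists_mono (lt_ord.2 (by rwa [Ordinal.card_type])).le

end Pool.Agent.MP_c6cf52_lc.Sis

end

section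

/-! Positive sets and tall sets. -/

namespace Pool.Agent.MP_c6cf52_lc.Sis

open Cardinal Set

universe u

variable {κ : Cardinal.{u}} {O : Type u}

/-- the colours -/
abbrev Co : Type u := ULift.{u} (Fin 3)

theorem mk_Co : #Co.{u} = 3 := by simp

theorem Kap.co (h : Kap κ) : #Co.{u} < κ := lt_aleph0_of_finite _ |>.trans_le h.inf

/-- indices of basic sets -/
abbrev Bx (κ : Cardinal.{u}) (D : Set O) : Type u := Co.{u} → Sm κ D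

/-- basic sets -/
def bs (c : O → O → Co.{u}) {D : Set O} (p : Bx κ D) : Set O :=
  {a | ∀ i, ∀ b ∈ (p i).1, c a b = i}

/-- `X` accumulates at `a` -/
def Pos (κ : Cardinal.{u}) (c : O → O → Co.{u}) (D : Set O) (a : O) (X : Set O) : Prop :=
  ∀ p : Bx κ D, a ∈ bs c p → κ ≤ #(X ∩ bs c p : Set O)

variable {c : O → O → Co.{u}} {D X Y S : Set O} {a : O}

theorem Kap.bx (h : Kap κ) (hD : #D ≤ κ) : #(Bx κ D) ≤ κ := by
  rw [← power_def]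
  exact (power_le_power_right (h.sm hD)).trans (h.pw _ h.co)

/-- the join of few basic indices -/
def Kap.jn (h : Kap κ) {ι : Type u} (hι : #ι < κ) (p : ι → Bx κ D) : Bx κ D := fun i =>
  ⟨⋃ j, (p j i).1, iUnion_subset fun j => (p j i).2.1, h.ltU hι fun j => (p j i).2.2⟩

theorem Kap.mem_jn (h : Kap κ) {ι : Type u} (hι : #ι < κ) {p : ι → Bx κ D} :
    a ∈ bs c (h.jn hι p) ↔ ∀ j, a ∈ bs c (p j) := by
  simp only [bs, Kap.jn, mem_setOf_eq, mem_iUnion, forall_exists_index]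
  exact ⟨fun H j i b hb => H i b j hb, fun H i b j hb => H j i b hb⟩

open Classical in
/-- the basic index of one colour -/
noncomputable def Kap.one (h : Kap κ) (i : Co.{u}) (s : Sm κ D) : Bx κ D := fun j =>
  if j = i then s else ⟨∅, empty_subset _, h.fin finite_empty⟩

theorem Kap.mem_one (h : Kap κ) {i : Co.{u}} {s : Sm κ D} :
    a ∈ bs c (h.one i s) ↔ ∀ b ∈ s.1, c a b = i := by
  refine ⟨fun H b hb => H i b (by simpa [Kap.one] using hb), fun H j b hb => ?_⟩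
  by_cases e : j = i
  · subst e
    exact H b (by simpa [Kap.one] using hb)
  · simp [Kap.one, e] at hb

theorem Pos.mono (H : Pos κ c D a X) (e : X ⊆ Y) : Pos κ c D a Y := fun p hp =>
  (H p hp).trans (mk_le_mk_of_subset (inter_subset_inter_left _ e))

theorem Pos.ext (h : Kap κ) (H : Pos κ c D a X) {i : Co.{u}} {s : Set O} (hs : s ⊆ D)
    (hl : #s < κ) (ha : ∀ b ∈ s, c a b = i) : κ ≤ #{x | x ∈ X ∧ ∀ b ∈ s, c x b = i} :=
  (H (h.one i ⟨s, hs, hl⟩) (h.mem_one.2 ha)).trans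
    (mk_le_mk_of_subset fun _ hx => ⟨hx.1, h.mem_one.1 hx.2⟩)

theorem Pos.card (h : Kap κ) (H : Pos κ c D a X) : κ ≤ #X :=
  (H.ext h (i := ⟨0⟩) (empty_subset _) (h.fin finite_empty) fun _ hb => hb.elim).trans
    (mk_le_mk_of_subset fun _ hx => hx.1)

theorem Pos.ne (h : Kap κ) (H : Pos κ c D a X) : X.Nonempty := h.ne (H.card h)

theorem Pos.pig (h : Kap κ) (H : Pos κ c D a X) {ι : Type u} (hι : #ι < κ) {r : ι → O → Prop}
    (hr : ∀ x ∈ X, ∃ i, r i x) : ∃ i, Pos κ c D a {x | x ∈ X ∧ r i x} := by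
  by_contra hn
  simp only [Pos, not_exists, not_forall, not_le] at hn
  choose p hp hl using hn
  refine (H (h.jn hι p) ((h.mem_jn hι).2 hp)).not_gt
    ((mk_le_mk_of_subset fun x hx => ?_).trans_lt (h.ltU hι hl))
  obtain ⟨i, hi⟩ := hr x hx.1
  exact mem_iUnion.2 ⟨i, ⟨hx.1, hi⟩, (h.mem_jn hι).1 hx.2 i⟩

theorem Pos.all (h : Kap κ) (H : Pos κ c D a X) {ι : Type u} (hι : #ι < κ) {r : ι → O → Prop}
    (hr : ∀ i, ¬ Pos κ c D a {x | x ∈ X ∧ ¬ r i x}) : Pos κ c D a {x | x ∈ X ∧ ∀ i, r i x} := by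
  obtain ⟨i, hi⟩ := H.pig h (ι := Option ι)
    (by rw [mk_option]; exact add_lt_of_lt h.inf hι (one_lt_aleph0.trans_le h.inf))
    (r := fun o x => o.elim (∀ i, r i x) fun i => ¬ r i x) fun x _ => by
      by_cases e : ∀ i, r i x
      · exact ⟨none, e⟩
      · obtain ⟨i, hi⟩ := not_forall.1 e
        exact ⟨some i, hi⟩
  cases i with
  | none => exact hi
  | some i => exact absurd hi (hr i)

theorem Pos.diff (h : Kap κ) (H : Pos κ c D a X) (hY : #Y < κ) : Pos κ c D a (X \ Y) :=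
  fun p hp => (h.geD (H p hp) hY).trans
    (mk_le_mk_of_subset fun _ hx => ⟨⟨hx.1.1, hx.2⟩, hx.1.2⟩)

/-- all basic neighbourhoods have a large trace on `S` -/
def Full (κ : Cardinal.{u}) (c : O → O → Co.{u}) (D S : Set O) (a : O) : Prop :=
  ∀ p : Bx κ D, a ∈ bs c p → κ < #(S ∩ bs c p : Set O)

theorem Kap.full (h : Kap κ) (c : O → O → Co.{u}) (hD : #D ≤ κ) (hS : κ < #S) :
    κ < #{a | a ∈ S ∧ Full κ c D S a} := by
  refine (h.lgD hS (h.leU (h.bx hD) (f := fun p : Bx κ D =>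
    {a | a ∈ S ∩ bs c p ∧ #(S ∩ bs c p : Set O) ≤ κ}) fun p => ?_)).trans_le
    (mk_le_mk_of_subset fun a ha => ⟨ha.1, fun p hp => lt_of_not_ge fun e =>
      ha.2 (mem_iUnion.2 ⟨p, ⟨ha.1, hp⟩, e⟩)⟩)
  by_cases e : #(S ∩ bs c p : Set O) ≤ κ
  · exact (mk_le_mk_of_subset fun _ ha => ha.1).trans e
  · simp [e]

theorem exists_ch (κ : Cardinal.{u}) (S : Set O) : ∃ T ⊆ S, #T ≤ κ ∧ (κ ≤ #S → κ ≤ #T) := by
  by_cases e : κ ≤ #S
  · obtain ⟨T, h1, h2⟩ := le_mk_iff_exists_subset.1 e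
    exact ⟨T, h1, h2.le, fun _ => h2.ge⟩
  · exact ⟨∅, empty_subset _, by simp, fun h => absurd h e⟩

/-- a block that accumulates at each of its points -/
theorem Kap.block (h : Kap κ) (c : O → O → Co.{u}) (hD : #D ≤ κ) (hS : κ < #S) :
    ∃ Γ ⊆ S, #Γ ≤ κ ∧ Γ.Nonempty ∧ ∀ a ∈ Γ, Pos κ c D a Γ := by
  set T := {a | a ∈ S ∧ Full κ c D S a} with hT
  have hF : ∀ p : Bx κ D, κ < #(S ∩ bs c p : Set O) → κ ≤ #(T ∩ bs c p : Set O) := fun p hp =>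
    (h.full c hD hp).le.trans (mk_le_mk_of_subset fun a ha => ⟨⟨ha.1.1, fun q hq =>
      (ha.2 q hq).trans_le (mk_le_mk_of_subset fun _ hx => ⟨hx.1.1, hx.2⟩)⟩, ha.1.2⟩)
  choose f h1 h2 h3 using fun p : Bx κ D => exists_ch κ (T ∩ bs c p)
  have hsub : (⋃ p, f p) ⊆ T := iUnion_subset fun p => (h1 p).trans inter_subset_left
  refine ⟨⋃ p, f p, fun a ha => (hsub ha).1, h.leU (h.bx hD) h2, ?_, fun a ha p hp => ?_⟩
  · let p := h.one ⟨0⟩ (⟨∅, empty_subset _, h.fin finite_empty⟩ : Sm κ D)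
    obtain ⟨a, ha⟩ := h.ne (h3 p (hF p (hS.trans_le (mk_le_mk_of_subset fun x hx =>
      ⟨hx, h.mem_one.2 fun _ hb => hb.elim⟩))))
    exact ⟨a, mem_iUnion.2 ⟨p, ha⟩⟩
  · exact (h3 p (hF p ((hsub ha).2 p hp))).trans
      (mk_le_mk_of_subset fun x hx => ⟨mem_iUnion.2 ⟨p, hx⟩, (h1 p hx).2⟩)

/-- one class of a three-partition of a block accumulates at one of its points -/
theorem Kap.self (h : Kap κ) {Γ : Set O} (hne : Γ.Nonempty) (hΓ : ∀ a ∈ Γ, Pos κ c D a Γ)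
    (g : O → Co.{u}) : ∃ a ∈ Γ, Pos κ c D a {x | x ∈ Γ ∧ g x = g a} := by
  by_contra hn
  simp only [Pos, not_exists, not_and, not_forall, not_le, exists_prop] at hn
  have : Nonempty (Bx κ D) := ⟨fun _ => ⟨∅, empty_subset _, h.fin finite_empty⟩⟩
  choose! p hp hl using hn
  have key : ∀ n : ℕ, ∃ J : Finset O, (J.image g).card = n ∧ ↑J ⊆ Γ ∧
      ∃ a ∈ Γ, ∀ x ∈ J, a ∈ bs c (p x) := by
    intro n
    induction n with
    | zero => exact ⟨∅, rfl, by simp, hne.imp fun a ha => ⟨ha, by simp⟩⟩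
    | succ n ih =>
      obtain ⟨J, h1, h2, a, ha, h3⟩ := ih
      have hJ : #J < κ := h.fin J.finite_toSet
      obtain ⟨b, ⟨hb, hb1⟩, hb2⟩ := h.ne (h.geD (hΓ a ha (h.jn hJ fun x : J => p x)
        ((h.mem_jn hJ).2 fun x => h3 x x.2)) (h.ltU hJ fun x : J => hl x (h2 x.2)))
      rw [h.mem_jn] at hb1
      classical
      refine ⟨insert b J, ?_, by simpa [insert_subset_iff] using ⟨hb, h2⟩, b, hb, fun x hx => ?_⟩
      · rw [Finset.image_insert, Finset.card_insert_of_notMem, h1]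
        intro e
        obtain ⟨x, hx, e⟩ := Finset.mem_image.1 e
        exact hb2 (mem_iUnion.2 ⟨⟨x, hx⟩, ⟨hb, e.symm⟩, hb1 ⟨x, hx⟩⟩)
      · rcases Finset.mem_insert.1 hx with rfl | hx
        · exact hp _ hb
        · exact hb1 ⟨x, hx⟩
  obtain ⟨J, h1, -⟩ := key 4
  have := Finset.card_le_univ (J.image g)
  simp [h1] at this

section tall
variable {Ξ : Type u}

/-- the hypothesis on the length of the tops -/
def Xi (κ : Cardinal.{u}) (Ξ : Type u) : Prop := ∀ θ, Order.succ θ < κ → θ ^ #Ξ < κ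

theorem Xi.sig (H : Xi κ Ξ) (h : Kap κ) : Order.succ (3 * #Ξ) < κ := by
  refine lt_of_le_of_lt ?_ (H (2 ^ (3 : Cardinal)) (lt_of_lt_of_le ?_ h.inf))
  · rw [← power_mul]
    exact Order.succ_le_of_lt (cantor _)
  · exact isSuccLimit_aleph0.succ_lt (power_lt_aleph0 (natCast_lt_aleph0 (n := 2))
      (natCast_lt_aleph0 (n := 3)))

theorem Xi.lt (H : Xi κ Ξ) (h : Kap κ) : #Ξ < κ :=
  lt_of_le_of_lt ((le_mul_left (by simp)).trans (Order.le_succ _)) (H.sig h)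

theorem big_class {W : Set O} (hW : 3 * #Ξ < #W) (g : O → Co.{u}) :
    ∃ i, #Ξ < #{x | x ∈ W ∧ g x = i} := by
  by_contra hn
  push Not at hn
  refine hW.not_ge ((mk_le_mk_of_subset (t := ⋃ i, {x | x ∈ W ∧ g x = i}) fun x hx =>
    mem_iUnion.2 ⟨g x, hx, rfl⟩).trans ((mk_iUnion_le _).trans ?_))
  rw [mk_Co]
  exact mul_le_mul' le_rfl (ciSup_le' hn)

theorem mk_maps (E : Set O) : #{t : Ξ → O | ∀ x, t x ∈ E} ≤ #E ^ #Ξ := by
  rw [power_def]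
  exact mk_le_of_injective (f := fun t x => ⟨t.1 x, t.2 x⟩) fun t t' e =>
    Subtype.ext (funext fun x => congrArg Subtype.val (congrFun e x))

variable [LinearOrder Ξ] [WellFoundedLT Ξ] [LinearOrder O] [WellFoundedLT O]

/-- few tall sets catch all big subsets of a small set -/
theorem Xi.catch (H : Xi κ Ξ) (h : Kap κ) {E : Set O} (hE : #E < κ) :
    ∃ T : Set (Ξ → O), #T < κ ∧ ∀ W ⊆ E, #Ξ < #W → ∃ t ∈ T, StrictMono t ∧ ∀ x, t x ∈ W := by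
  by_cases h1 : Order.succ #E < κ
  · refine ⟨_, (mk_maps E).trans_lt (H _ h1), fun W hW hl => ?_⟩
    obtain ⟨t, ht, ht'⟩ := exists_tall hl
    exact ⟨t, fun x => hW (ht' x), ht, ht'⟩
  have hi : ℵ₀ ≤ #E := le_of_not_gt fun e =>
    h1 ((isSuccLimit_aleph0.succ_lt e).trans_le h.inf)
  obtain ⟨f⟩ : Nonempty (E ≃ (#E).ord.ToType) := Cardinal.eq.1 (by simp)
  let F : (#E).ord.ToType → Set O := fun k => Subtype.val '' (f ⁻¹' Iic k)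
  have hF : ∀ k, #(F k) < #E := fun k => by
    refine (mk_image_le.trans (mk_preimage_of_injective _ _ f.injective)).trans_lt ?_
    rw [← Iio_union_right]
    exact (mk_union_le _ _).trans_lt
      (add_lt_of_lt hi (iio_lt k) ((finite_singleton _).lt_aleph0.trans_le hi))
  refine ⟨⋃ k, {t | ∀ x, t x ∈ F k}, h.ltU (by simpa using hE) fun k =>
    (mk_maps _).trans_lt (H _ ((Order.succ_le_of_lt (hF k)).trans_lt hE)), fun W hW hl => ?_⟩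
  obtain ⟨t, ht, ht'⟩ := exists_tall hl
  by_cases hb : BddAbove (range fun x => f ⟨t x, hW (ht' x)⟩)
  · obtain ⟨k, hk⟩ := hb
    exact ⟨t, mem_iUnion.2 ⟨k, fun x => ⟨_, hk ⟨x, rfl⟩, rfl⟩⟩, ht, ht'⟩
  have : Nonempty (#E).ord.ToType := by
    rw [← mk_ne_zero_iff]
    simpa using (aleph0_pos.trans_le hi).ne'
  have hΞ : ℵ₀ ≤ #Ξ := le_of_not_gt fun e => by
    have := lt_aleph0_iff_finite.1 e
    exact hb (finite_range _).bddAbove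
  obtain ⟨x, hx⟩ : ∃ x, #Ξ < #(W ∩ F (f ⟨t x, hW (ht' x)⟩) : Set O) := by
    by_contra hn
    push Not at hn
    refine hl.not_ge ((mk_le_mk_of_subset (t := ⋃ x, W ∩ F (f ⟨t x, hW (ht' x)⟩))
      fun w hw => ?_).trans ((mk_iUnion_le _).trans
        ((mul_le_mul' le_rfl (ciSup_le' hn)).trans (mul_eq_self hΞ).le)))
    obtain ⟨_, ⟨x, rfl⟩, hx⟩ := not_bddAbove_iff.1 hb (f ⟨w, hW hw⟩)
    exact mem_iUnion.2 ⟨x, hw, ⟨w, hW hw⟩, hx.le, rfl⟩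
  obtain ⟨t', h2, h3⟩ := exists_tall hx
  exact ⟨t', mem_iUnion.2 ⟨_, fun y => (h3 y).2⟩, h2, fun y => (h3 y).1⟩

/-- pigeonhole for tall sets -/
theorem Pos.tall (H : Xi κ Ξ) (h : Kap κ) (hX : Pos κ c D a X) {E : Set O} (hE : #E < κ)
    (q : Co.{u} → Prop) (hq : ∀ x ∈ X, 3 * #Ξ < #{b | b ∈ E ∧ q (c x b)}) [Nonempty Ξ] :
    ∃ i, q i ∧ ∃ t : Ξ → O, StrictMono t ∧ (∀ y, t y ∈ E) ∧
      Pos κ c D a {x | x ∈ X ∧ ∀ y, c x (t y) = i} := by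
  obtain ⟨T, hT, hc⟩ := H.catch h hE
  obtain ⟨⟨i, t⟩, hp⟩ := hX.pig h (ι := Co.{u} × T)
    (by rw [mk_prod, lift_id, lift_id]; exact mul_lt_of_lt h.inf h.co hT)
    (r := fun z x => q z.1 ∧ StrictMono z.2.1 ∧ (∀ y, z.2.1 y ∈ E) ∧ ∀ y, c x (z.2.1 y) = z.1)
    fun x hx => by
      obtain ⟨i, hi⟩ := big_class (hq x hx) (c x)
      obtain ⟨t, h1, h2, h3⟩ := hc _ (fun b hb => hb.1.1) hi
      obtain ⟨y⟩ := ‹Nonempty Ξ›
      exact ⟨⟨i, t, h1⟩, (h3 y).2 ▸ (h3 y).1.2, h2, fun y => (h3 y).1.1, fun y => (h3 y).2⟩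
  obtain ⟨x, -, h1, h2, h3, -⟩ := hp.ne h
  exact ⟨i, h1, t, h2, h3, hp.mono fun x hx => ⟨hx.1, hx.2.2.2.2⟩⟩

end tall

end Pool.Agent.MP_c6cf52_lc.Sis

end

section

/-! Thin, rich and alive colours. -/

namespace Pool.Agent.MP_c6cf52_lc.Sis

open Cardinal Set

universe u

variable {κ : Cardinal.{u}} {O : Type u} {Ξ : Type u} [LinearOrder Ξ] [LinearOrder O]

/-- no tall subset of `Z` has a positive common neighbourhood of colour `i` -/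
def Thin (κ : Cardinal.{u}) (Ξ : Type u) [LinearOrder Ξ] (c : O → O → Co.{u}) (D : Set O)
    (i : Co.{u}) (a : O) (X Z : Set O) : Prop :=
  ∀ t : Ξ → O, StrictMono t → (∀ y, t y ∈ Z) → ¬ Pos κ c D a {x | x ∈ X ∧ ∀ y, c x (t y) = i}

/-- no refinement is thin -/
def Rich (κ : Cardinal.{u}) (Ξ : Type u) [LinearOrder Ξ] (c : O → O → Co.{u}) (D : Set O)
    (i : Co.{u}) (a : O) (X B : Set O) : Prop :=
  ∀ X' ⊆ X, Pos κ c D a X' → ∀ B' ⊆ B, κ < #B' → ¬ Thin κ Ξ c D i a X' B'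

/-- the colour has large neighbourhoods everywhere -/
def Alive (κ : Cardinal.{u}) (c : O → O → Co.{u}) (A B : Set O) (i : Co.{u}) : Prop :=
  ∀ A' ⊆ A, κ < #A' → ∀ B' ⊆ B, κ < #B' → ∃ a ∈ A', κ < #{b | b ∈ B' ∧ c a b = i}

/-- the colour has no large neighbourhood -/
def Dead (κ : Cardinal.{u}) (c : O → O → Co.{u}) (A B : Set O) (i : Co.{u}) : Prop :=
  ∀ a ∈ A, #{b | b ∈ B ∧ c a b = i} ≤ κ

/-- a monochromatic rectangle with tops -/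
def Win (κ : Cardinal.{u}) (Ξ : Type u) [LinearOrder Ξ] (c : O → O → Co.{u}) : Prop :=
  ∃ (i : Co.{u}) (X Y : Set O) (s t : Ξ → O), κ ≤ #X ∧ κ ≤ #Y ∧ StrictMono s ∧ StrictMono t ∧
    (∀ a ∈ X, ∀ y, a < s y) ∧ (∀ b ∈ Y, ∀ y, b < t y) ∧
    ∀ a ∈ X ∪ range s, ∀ b ∈ Y ∪ range t, c a b = i

variable {c : O → O → Co.{u}} {D X X' Y Z Z' S A B A' B' : Set O} {a b : O} {i j k : Co.{u}}

theorem Win.flip (h : Win κ Ξ (flip c)) : Win κ Ξ c := by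
  obtain ⟨i, X, Y, s, t, h1, h2, h3, h4, h5, h6, h7⟩ := h
  exact ⟨i, Y, X, t, s, h2, h1, h4, h3, h6, h5, fun a ha b hb => h7 b hb a ha⟩

theorem Thin.mono (h : Thin κ Ξ c D i a X Z) (hX : X' ⊆ X) (hZ : Z' ⊆ Z) :
    Thin κ Ξ c D i a X' Z' := fun t h1 h2 h3 =>
  h t h1 (fun y => hZ (h2 y)) (h3.mono fun _ hx => ⟨hX hx.1, hx.2⟩)

theorem Rich.mono (h : Rich κ Ξ c D i a X B) (hX : X' ⊆ X) (hB : B' ⊆ B) :
    Rich κ Ξ c D i a X' B' := fun X'' h1 h2 B'' h3 => h X'' (h1.trans hX) h2 B'' (h3.trans hB)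

theorem Rich.ex (h : Rich κ Ξ c D i a X B) (hX : Pos κ c D a X) (hB : κ < #B) :
    ∃ t : Ξ → O, StrictMono t ∧ (∀ y, t y ∈ B) ∧
      Pos κ c D a {x | x ∈ X ∧ ∀ y, c x (t y) = i} := by
  have := h X subset_rfl hX B subset_rfl hB
  simpa only [Thin, not_forall, not_not, exists_prop] using this

theorem Rich.pt [Nonempty Ξ] (h : Rich κ Ξ c D i a X B) (hX : Pos κ c D a X) :
    #{b | b ∈ B ∧ ¬ Pos κ c D a {x | x ∈ X ∧ c x b = i}} ≤ κ := le_of_not_gt fun hl => by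
  obtain ⟨t, -, h1, h2⟩ := (h.mono subset_rfl fun _ hb => hb.1).ex hX hl
  obtain ⟨y⟩ := ‹Nonempty Ξ›
  exact (h1 y).2 (h2.mono fun x hx => ⟨hx.1, hx.2 y⟩)

theorem Rich.pts [Nonempty Ξ] (hk : Kap κ) (h : Rich κ Ξ c D i a X B) (hX : Pos κ c D a X)
    (hB : κ < #B) : κ < #{b | b ∈ B ∧ Pos κ c D a {x | x ∈ X ∧ c x b = i}} :=
  (hk.lgD hB (h.pt hX)).trans_le (mk_le_mk_of_subset fun _ hb =>
    ⟨hb.1, by_contra fun e => hb.2 ⟨hb.1, e⟩⟩)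

omit [LinearOrder O] in
theorem Alive.mono (h : Alive κ c A B i) (hA : A' ⊆ A) (hB : B' ⊆ B) : Alive κ c A' B' i :=
  fun A'' h1 h2 B'' h3 => h A'' (h1.trans hA) h2 B'' (h3.trans hB)

omit [LinearOrder O] in
theorem Dead.mono (h : Dead κ c A B i) (hA : A' ⊆ A) (hB : B' ⊆ B) : Dead κ c A' B' i :=
  fun a ha => le_trans (mk_le_mk_of_subset fun _ hb => And.intro (hB hb.1) hb.2) (h a (hA ha))

theorem Rich.alive [Nonempty Ξ] (hk : Kap κ) (h : Rich κ Ξ c D i a X B') (hX : Pos κ c D a X)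
    (hc : #X ≤ κ) (hA : X ⊆ A) (hB : B' ⊆ B) (hl : κ < #B') : ¬ Dead κ c A B i := fun hd => by
  obtain ⟨b, ⟨h1, h2⟩, h3⟩ := hk.ne (hk.lgD (h.pts hk hX hl)
    (hk.leU hc fun x : X => hd x (hA x.2))).le
  obtain ⟨x, hx⟩ := h2.ne hk
  exact h3 (mem_iUnion.2 ⟨⟨x, hx.1⟩, hB h1, hx.2⟩)

theorem Kap.above (hk : Kap κ) (ini : ∀ a : O, #(Iic a) ≤ κ) (hS : κ < #S) {N : Set O}
    (hN : #N ≤ κ) : κ < #{x | x ∈ S ∧ ∀ n ∈ N, n < x} :=
  (hk.lgD hS (hk.leU hN fun n : N => ini n)).trans_le (mk_le_mk_of_subset fun _ hx =>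
    ⟨hx.1, fun n hn => lt_of_not_ge fun e => hx.2 (mem_iUnion.2 ⟨⟨n, hn⟩, e⟩)⟩)

/-- an accumulating set all of whose small subsets have large common neighbourhoods -/
theorem Alive.acc (hk : Kap κ) (ini : ∀ a : O, #(Iic a) ≤ κ) (h : Alive κ c A B i) (hA : κ < #A)
    (hB : κ < #B) (hD : #D ≤ κ) : ∃ a ∈ A, ∃ A₂ ⊆ A, #A₂ ≤ κ ∧ Pos κ c D a A₂ ∧
      ∀ s ⊆ A₂, #s < κ → κ < #{b | b ∈ B ∧ ∀ x ∈ s, c x b = i} := by
  obtain ⟨a, ha, hf⟩ := hk.ne (hk.full c hD hA).le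
  by_contra hn
  have hE : ∀ γ, #(A ∩ Iic γ : Set O) ≤ κ := fun γ =>
    (mk_le_mk_of_subset inter_subset_right).trans (ini γ)
  have key : ∀ γ : O, ∃ β ∈ B, γ < β ∧ ∃ p : Bx κ D, a ∈ bs c p ∧
      #({x | x ∈ A ∩ Iic γ ∧ c x β = i} ∩ bs c p : Set O) < κ := fun γ => by
    obtain ⟨β, ⟨h1, h2⟩, h3⟩ := hk.ne (hk.above ini (hk.full (flip c) (hE γ) hB)
      (hk.fin (finite_singleton γ)).le).le
    refine ⟨β, h1, h3 γ rfl, ?_⟩
    by_contra hp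
    refine hn ⟨a, ha, {x | x ∈ A ∩ Iic γ ∧ c x β = i}, fun x hx => hx.1.1,
      (mk_le_mk_of_subset fun x hx => hx.1).trans (hE γ),
      fun p hp' => le_of_not_gt fun e => hp ⟨p, hp', e⟩, fun s hs hl => ?_⟩
    exact (h2 (hk.one i ⟨s, fun x hx => (hs hx).1, hl⟩)
      (hk.mem_one.2 fun x hx => (hs hx).2)).trans_le
      (mk_le_mk_of_subset fun b hb => ⟨hb.1, hk.mem_one.1 hb.2⟩)
  choose β h1 h2 p h3 h4 using key
  obtain ⟨q, hq⟩ := hk.pig (hk.bx hD) hA (r := fun q γ => p γ = q) fun γ _ => ⟨_, rfl⟩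
  obtain ⟨r, hr, M, hM, hl, hs⟩ := hk.delta hq _ fun γ _ => h4 γ
  obtain ⟨γ₀, hγ₀⟩ := hk.ne hq.le
  have hb : κ < #(β '' M) := lt_of_not_ge fun e => hl.not_ge
    ((mk_le_mk_of_subset fun γ hγ => mem_iUnion.2 ⟨⟨β γ, γ, hγ, rfl⟩, (h2 γ).le⟩).trans
      (hk.leU e fun b : β '' M => ini b))
  obtain ⟨x, ⟨hx1, hx2⟩, hx⟩ := h _ (fun x hx => hx.1.1)
    (hk.lgD (hf q (hγ₀.2 ▸ h3 γ₀)) hr.le) (β '' M) (by rintro _ ⟨γ, -, rfl⟩; exact h1 γ) hb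
  refine hx.not_ge ((mk_le_mk_of_subset (t := β '' (Iic x ∪ _)) ?_).trans (mk_image_le.trans
    (hk.le2 (ini x) (hk.fin (hs x hx2).finite).le)))
  rintro _ ⟨⟨γ, hγ, rfl⟩, e⟩
  refine ⟨γ, ?_, rfl⟩
  rcases le_total γ x with l | l
  · exact Or.inl l
  · exact Or.inr ⟨hγ, ⟨⟨hx1.1, l⟩, e⟩, (hM hγ).2 ▸ hx1.2⟩

variable [WellFoundedLT Ξ] [WellFoundedLT O]

theorem Alive.tops (hk : Kap κ) (hx : Xi κ Ξ) (ini : ∀ a : O, #(Iic a) ≤ κ) (h : Alive κ c A B i)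
    (hA : κ < #A) (hB : κ < #B) : ∃ s : Ξ → O, StrictMono s ∧ (∀ y, s y ∈ A) ∧
      κ < #{b | b ∈ B ∧ ∀ y, c (s y) b = i} := by
  obtain ⟨a, -, A₂, h1, -, h2, h3⟩ := h.acc hk ini hA hB (D := ∅) (by simp)
  obtain ⟨s, h4, h5⟩ := exists_tall ((hx.lt hk).trans_le (h2.card hk))
  refine ⟨s, h4, fun y => h1 (h5 y), ?_⟩
  simpa using h3 (range s) (range_subset_iff.2 h5) (mk_range_le.trans_lt (hx.lt hk))

/-- two thin colours give a rectangle of the third colour -/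
theorem thin_rect [Nonempty Ξ] (hk : Kap κ) (hx : Xi κ Ξ) {D' : Set O} (hX : Pos κ c D a X)
    (hD : X ⊆ D') (hb : ∀ x ∈ X, c x b = j) (hZ : Pos κ (flip c) D' b Z)
    (ht : ∀ i, i ≠ j → Thin κ Ξ c D i a X Z) :
    ∃ X' ⊆ X, ∃ Y' ⊆ Z, κ ≤ #X' ∧ κ ≤ #Y' ∧ ∀ x ∈ X', ∀ y ∈ Y', c x y = j := by
  obtain ⟨M, h1, h2, h3⟩ := exists_max
    {s : Set O | s ⊆ Z ∧ #s < κ ∧ ¬ Pos κ c D a {x | x ∈ X ∧ ∀ y ∈ s, c x y = j}} Disjoint
    fun _ _ d => d.symm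
  have hU : ∀ N ⊆ M, #N < κ → #(⋃ s : N, s.1) < κ := fun N hN hl =>
    hk.ltU hl fun s => (h1 (hN s.2)).2.1
  by_cases hM : Order.succ (3 * #Ξ) ≤ #M
  · obtain ⟨N, hN, hc⟩ := le_mk_iff_exists_subset.1 hM
    have hl : #N < κ := hc.trans_lt (hx.sig hk)
    have hp := hX.all hk hl (r := fun s x => ¬ ∀ y ∈ s.1, c x y = j) fun s => by
      simpa only [not_not] using (h1 (hN s.2)).2.2
    obtain ⟨i, hi, t, h4, h5, h6⟩ := hp.tall hx hk (hU N hN hl) (· ≠ j) fun x hx => by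
      have := hx.2
      simp only [not_forall, exists_prop] at this
      choose f hf hf' using this
      refine (Order.lt_succ _).trans_le (hc.ge.trans (mk_le_of_injective
        (f := fun s => ⟨f s, mem_iUnion.2 ⟨s, hf s⟩, hf' s⟩) fun s s' e => ?_))
      by_contra hn
      have e' : f s = f s' := congrArg Subtype.val e
      exact disjoint_left.1 (h2 (hN s.2) (hN s'.2) fun e => hn (Subtype.ext e)) (hf s)
        (e' ▸ hf s')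
    refine absurd (h6.mono fun x hx => And.intro hx.1.1 hx.2) (ht i hi t h4 fun y => ?_)
    obtain ⟨s, hs⟩ := mem_iUnion.1 (h5 y)
    exact (h1 (hN s.2)).1 hs
  have hE := hU M subset_rfl ((not_le.1 hM).trans (hx.sig hk))
  obtain ⟨X', h4, Y', h5, h6⟩ := hk.rect (X := X) (Y := Z \ ⋃ s : M, s.1) (fun x y => c x y = j)
    (fun s hs hl => Pos.card hk (c := c) (D := D) (a := a) (by_contra fun hn => by
      have hm : s ∈ M := h3 s ⟨fun y hy => (hs hy).1, hl, hn⟩ fun s' hs' =>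
        disjoint_left.2 fun y hy hy' => (hs hy).2 (mem_iUnion.2 ⟨⟨s', hs'⟩, hy'⟩)
      exact hn (hX.mono fun x hx => ⟨hx, fun y hy =>
        absurd (mem_iUnion.2 ⟨⟨s, hm⟩, hy⟩) (hs hy).2⟩)))
    fun s hs hl => (hZ.diff hk hE).ext hk (hs.trans hD) hl fun x hx => hb x (hs hx)
  exact ⟨X', h4, Y', fun y hy => (h5 hy).1, h6⟩

theorem exists_rich [Nonempty Ξ] (hk : Kap κ) (hx : Xi κ Ξ) (hX : Pos κ c D a X) (hB : κ < #B) :
    ∃ i, ¬ Thin κ Ξ c D i a X B := by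
  obtain ⟨E, hE, hc⟩ := le_mk_iff_exists_subset.1 ((hx.sig hk).trans hB).le
  obtain ⟨i, -, t, h1, h2, h3⟩ := hX.tall hx hk (hc.trans_lt (hx.sig hk)) (fun _ => True)
    fun x _ => by simp [hc]
  exact ⟨i, fun h => h t h1 (fun y => hE (h2 y)) h3⟩

end Pool.Agent.MP_c6cf52_lc.Sis

end

section

/-! One level of the construction. -/

namespace Pool.Agent.MP_c6cf52_lc.Sis

open Cardinal Set

universe u

variable {κ : Cardinal.{u}} {O : Type u} {Ξ : Type u} [LinearOrder Ξ] [LinearOrder O]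

/-- the data of one level -/
structure Ctx (κ : Cardinal.{u}) (Ξ : Type u) [LinearOrder Ξ] (c : O → O → Co.{u})
    (A B DA DB TA TB : Set O) : Prop where
  kap : Kap κ
  xi : Xi κ Ξ
  ini : ∀ a : O, #(Iic a) ≤ κ
  nw : ¬ Win κ Ξ c
  adL : ∀ i, Alive κ c A B i ∨ Dead κ c A B i
  adR : ∀ i, Alive κ (flip c) B A i ∨ Dead κ (flip c) B A i
  cA : #DA ≤ κ
  cB : #DB ≤ κ
  dA : DA ⊆ A
  dB : DB ⊆ B
  tA : TA ⊆ A
  tB : TB ⊆ B
  lA : κ < #TA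
  lB : κ < #TB
  abA : ∀ d ∈ DA, ∀ a ∈ TA, d < a
  abB : ∀ d ∈ DB, ∀ b ∈ TB, d < b
  pA : ∀ a ∈ TA, Pos κ c DB a DA
  pB : ∀ b ∈ TB, Pos κ (flip c) DA b DB

variable {c : O → O → Co.{u}} {X Y Z A B DA DB TA TB A' B' : Set O} {a b : O} {i j k : Co.{u}}

theorem Ctx.swap (H : Ctx κ Ξ c A B DA DB TA TB) : Ctx κ Ξ (flip c) B A DB DA TB TA :=
  ⟨H.kap, H.xi, H.ini, fun h => H.nw h.flip, H.adR, H.adL, H.cB, H.cA, H.dB, H.dA, H.tB, H.tA,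
    H.lB, H.lA, H.abB, H.abA, H.pB, H.pA⟩

theorem Ctx.alive [Nonempty Ξ] (H : Ctx κ Ξ c A B DA DB TA TB) (h : Rich κ Ξ c DB i a X B')
    (hX : Pos κ c DB a X) (hD : X ⊆ DA) (hB : B' ⊆ TB) (hl : κ < #B') : Alive κ c A B i :=
  (H.adL i).resolve_right (h.alive H.kap hX ((mk_le_mk_of_subset hD).trans H.cA) (hD.trans H.dA)
    (hB.trans H.tB) hl)

variable [WellFoundedLT Ξ] [WellFoundedLT O] [Nonempty Ξ]

/-- two thin colours on an accumulating set, with tops on both sides -/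
theorem Ctx.fat (H : Ctx κ Ξ c A B DA DB TA TB) (hD : X ⊆ DA) {s t : Ξ → O} (hs : StrictMono s)
    (hs' : ∀ y, s y ∈ TA) (ht : StrictMono t) (hZ : Pos κ (flip c) DA b Z)
    (hX : Pos κ c DB a X) (hb : ∀ x ∈ X, c x b = j) (hb' : ∀ x ∈ X, ∀ y, c x (t y) = j)
    (hsZ : ∀ z ∈ Z, ∀ y, c (s y) z = j) (hst : ∀ y y', c (s y) (t y') = j)
    (hZt : ∀ z ∈ Z, ∀ y, z < t y) (hth : ∀ i, i ≠ j → Thin κ Ξ c DB i a X Z) : False := by
  obtain ⟨X', h1, Y', h2, h3, h4, h5⟩ := thin_rect H.kap H.xi hX hD hb hZ hth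
  refine H.nw ⟨j, X', Y', s, t, h3, h4, hs, ht, fun x hx y => H.abA x (hD (h1 hx)) _ (hs' y),
    fun z hz => hZt z (h2 hz), ?_⟩
  rintro x (hx | ⟨y, rfl⟩) z (hz | ⟨y', rfl⟩)
  exacts [h5 x hx z hz, hb' x (h1 hx) y', hsZ z (h2 hz) y, hst y y']

theorem Ctx.key (H : Ctx κ Ξ c A B DA DB TA TB) (hD : X ⊆ DA) (hX : Pos κ c DB a X)
    (hB : B' ⊆ TB) (hl : κ < #B') (hj : Rich κ Ξ c DB j a X B')
    (hk : ∀ m, m ≠ i → m ≠ j → Thin κ Ξ c DB m a X B') (Q : Set O → Prop)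
    (hQ : ∀ B'' ⊆ B', κ < #B'' → ∃ b ∈ B'', ∃ Z ⊆ B'', #Z ≤ κ ∧ Pos κ (flip c) DA b Z ∧ Q Z) :
    ∃ Z ⊆ B', Q Z ∧ ¬ Thin κ Ξ c DB i a X Z := by
  obtain ⟨s, h1, h2, h3⟩ := ((H.alive hj hX hD hB hl).mono H.tA (hB.trans H.tB)).tops H.kap H.xi
    H.ini H.lA hl
  have hj' := hj.mono subset_rfl (fun _ hb => hb.1 : {b | b ∈ B' ∧ ∀ y, c (s y) b = j} ⊆ B')
  obtain ⟨b, hb, Z, hZ, h4, h5, h6⟩ := hQ _ (fun _ hb => hb.1.1) (hj'.pts H.kap hX h3)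
  refine ⟨Z, fun z hz => (hZ hz).1.1, h6, fun hi => ?_⟩
  obtain ⟨t, h7, h8, h9⟩ := (hj'.mono (fun _ hx => hx.1) fun _ hb => hb.1).ex hb.2
    (H.kap.above H.ini h3 h4)
  refine H.fat (fun x hx => hD hx.1.1) h1 h2 h7 h5 h9 (fun x hx => hx.1.2) (fun x hx => hx.2)
    (fun z hz => (hZ hz).1.2) (fun y y' => (h8 y').1.2 y) (fun z hz y => (h8 y).2 z hz)
    fun m hm => ?_
  by_cases e : m = i
  · exact e ▸ hi.mono (fun _ hx => hx.1.1) subset_rfl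
  · exact (hk m e hm).mono (fun _ hx => hx.1.1) fun z hz => (hZ hz).1.1

theorem third : ∀ i j k m : Co.{u}, j ≠ k → i ≠ j → i ≠ k → m ≠ j → m ≠ k → m = i := by decide

theorem ex_third : ∀ j k : Co.{u}, ∃ i, i ≠ j ∧ i ≠ k := by decide

theorem ex_two : ∀ i : Co.{u}, ∃ j k, j ≠ i ∧ k ≠ i ∧ k ≠ j := by decide

theorem Ctx.rich (H : Ctx κ Ξ c A B DA DB TA TB) (hD : X ⊆ DA) (hB : B' ⊆ TB)
    (hk : Thin κ Ξ c DB k a X B') (hj : j ≠ k) : Rich κ Ξ c DB j a X B' := by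
  intro X' h1 h2 B'' h3 h4 h5
  have hk' := hk.mono h1 h3
  obtain ⟨i, hi1, hi2⟩ := ex_third j k
  have hi : Rich κ Ξ c DB i a X' B'' := fun X₀ g1 g2 B₀ g3 g4 g5 => by
    obtain ⟨m, hm⟩ := exists_rich (Ξ := Ξ) H.kap H.xi g2 g4
    refine hm ?_
    by_cases e : m = j
    · exact e ▸ h5.mono g1 g3
    by_cases e' : m = k
    · exact e' ▸ hk'.mono g1 g3
    exact third i j k m hj hi1 hi2 e e' ▸ g5
  obtain ⟨Z, hZ, -, h6⟩ := H.key (i := j) (h1.trans hD) h2 (h3.trans hB) h4 hi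
    (fun m e e' => third k j i m hi1.symm hj.symm hi2.symm e e' ▸ hk') (fun _ => True)
    fun S hS hl => by
      obtain ⟨Γ, g1, g2, ⟨b, hb⟩, g3⟩ := H.kap.block (flip c) H.cA hl
      exact ⟨b, g1 hb, Γ, g1, g2, g3 b hb, trivial⟩
  exact h6 (h5.mono subset_rfl hZ)

omit [Nonempty Ξ] [WellFoundedLT Ξ] [WellFoundedLT O] in
theorem Ctx.fin (H : Ctx κ Ξ c A B DA DB TA TB) (hX : X ⊆ DA) (hY : Y ⊆ DB) {s t : Ξ → O}
    (hs : StrictMono s) (hs' : ∀ y, s y ∈ TA) (ht : StrictMono t) (ht' : ∀ y, t y ∈ TB)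
    (h1 : Pos κ c DB a X) (h2 : Pos κ (flip c) DA b Y) (h3 : ∀ x ∈ X, c x b = i)
    (h4 : ∀ z ∈ Y, c a z = i) (h5 : ∀ x ∈ X, ∀ y, c x (t y) = i)
    (h6 : ∀ z ∈ Y, ∀ y, c (s y) z = i) (h7 : ∀ y y', c (s y) (t y') = i) : False := by
  obtain ⟨X', g1, Y', g2, g3, g4, g5⟩ := H.kap.rect (X := X) (Y := Y) (fun x z => c x z = i)
    (fun s hs hl => h1.ext H.kap (hs.trans hY) hl fun z hz => h4 z (hs hz))
    fun s hs hl => h2.ext H.kap (hs.trans hX) hl fun z hz => h3 z (hs hz)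
  refine H.nw ⟨i, X', Y', s, t, g3, g4, hs, ht, fun x hx y => H.abA x (hX (g1 hx)) _ (hs' y),
    fun z hz y => H.abB z (hY (g2 hz)) _ (ht' y), ?_⟩
  rintro x (hx | ⟨y, rfl⟩) z (hz | ⟨y', rfl⟩)
  exacts [g5 x hx z hz, h5 x (g1 hx) y', h6 z (g2 hz) y, h7 y y']

/-- good colours -/
def Good (κ : Cardinal.{u}) (Ξ : Type u) [LinearOrder Ξ] (c : O → O → Co.{u}) (DA DB TB : Set O)
    (i : Co.{u}) (a b : O) : Prop :=
  ∃ X ⊆ DA, Pos κ c DB a X ∧ (∀ x ∈ X, c x b = i) ∧ ∃ B' ⊆ TB, κ < #B' ∧ Rich κ Ξ c DB i a X B'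

theorem Ctx.win (H : Ctx κ Ξ c A B DA DB TA TB) (hD : X ⊆ DA)
    (hX : Pos κ c DB a {x | x ∈ X ∧ c x b = i}) (hB : B' ⊆ TB) (hl : κ < #B') (hk : i ≠ k)
    (ht : Thin κ Ξ c DB k a X B') (hg : Good κ Ξ (flip c) DB DA TA i b a) : False := by
  obtain ⟨Y, h1, h2, h3, A', h4, h5, h6⟩ := hg
  obtain ⟨j, hj1, hj2⟩ := ex_third i k
  have ht' := ht.mono (fun _ hx => hx.1 : {x | x ∈ X ∧ c x b = i} ⊆ X) subset_rfl
  have hD' : {x | x ∈ X ∧ c x b = i} ⊆ DA := fun _ hx => hD hx.1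
  obtain ⟨Z, hZ, hQ, h7⟩ := H.key (i := i) hD' hX hB hl (H.rich hD' hB ht' hj2)
    (fun m e e' => third k i j m hj1.symm hk.symm hj2.symm e e' ▸ ht')
    (fun Z => ∀ s ⊆ Z, #s < κ → κ < #{x | x ∈ A' ∧ ∀ z ∈ s, c x z = i}) fun S hS hl' =>
      ((H.swap.alive h6 h2 h1 h4 h5).mono ((hS.trans hB).trans H.tB) (h4.trans H.tA)).acc H.kap
        H.ini hl' h5 H.cA
  simp only [Thin, not_forall, not_not, exists_prop] at h7
  obtain ⟨t, g1, g2, g3⟩ := h7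
  obtain ⟨s, g4, g5, g6⟩ := (h6.mono subset_rfl fun _ hx => hx.1).ex h2
    (hQ (range t) (range_subset_iff.2 g2) (mk_range_le.trans_lt (H.xi.lt H.kap)))
  exact H.fin (fun _ hx => hD hx.1.1) (fun _ hx => h1 hx.1) g4 (fun y => h4 (g5 y).1) g1
    (fun y => hB (hZ (g2 y))) g3 g6 (fun _ hx => hx.1.2) (fun z hz => h3 z hz.1)
    (fun _ hx => hx.2) (fun _ hz => hz.2) fun y y' => (g5 y).2 _ ⟨y', rfl⟩

omit [WellFoundedLT Ξ] [WellFoundedLT O] in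
theorem Ctx.good (H : Ctx κ Ξ c A B DA DB TA TB) (hD : X ⊆ DA) (hX : Pos κ c DB a X)
    (hB : B' ⊆ TB) (hl : κ < #B') (h : Rich κ Ξ c DB i a X B') :
    ∃ b ∈ B', Good κ Ξ c DA DB TB i a b := by
  obtain ⟨b, hb, hp⟩ := H.kap.ne (h.pts H.kap hX hl).le
  exact ⟨b, hb, _, fun _ hx => hD hx.1, hp, fun _ hx => hx.2, B', hB, hl,
    h.mono (fun _ hx => hx.1) subset_rfl⟩

omit [Nonempty Ξ] [WellFoundedLT Ξ] [WellFoundedLT O] in
theorem not_rich {D : Set O} (h : ¬ Rich κ Ξ c D i a X B') :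
    ∃ X' ⊆ X, Pos κ c D a X' ∧ ∃ B'' ⊆ B', κ < #B'' ∧ Thin κ Ξ c D i a X' B'' := by
  simpa only [Rich, not_forall, not_not, exists_prop] using h

theorem Ctx.two (H : Ctx κ Ξ c A B DA DB TA TB) (ha : a ∈ TA) (i : Co.{u}) :
    #{b | b ∈ TB ∧ ∀ j, j ≠ i → ¬ Good κ Ξ c DA DB TB j a b} ≤ κ := le_of_not_gt fun hl => by
  obtain ⟨j, k, h1, h2, h3⟩ := ex_two i
  by_cases h : Rich κ Ξ c DB j a DA {b | b ∈ TB ∧ ∀ j, j ≠ i → ¬ Good κ Ξ c DA DB TB j a b}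
  · obtain ⟨b, hb, hg⟩ := H.good subset_rfl (H.pA a ha) (fun _ hb => hb.1) hl h
    exact hb.2 j h1 hg
  · obtain ⟨X, g1, g2, B', g3, g4, g5⟩ := not_rich h
    obtain ⟨b, hb, hg⟩ := H.good g1 g2 (fun _ hb => (g3 hb).1) g4
      (H.rich g1 (fun _ hb => (g3 hb).1) g5 h3)
    exact (g3 hb).2 k h2 hg

omit [Nonempty Ξ] in
/-- left tops fixed in advance -/
theorem Ctx.pre (H : Ctx κ Ξ c A B DA DB TA TB) : ∃ Γ ⊆ TB, κ < #Γ ∧ ∀ i,
    (∃ s : Ξ → O, StrictMono s ∧ (∀ y, s y ∈ TA) ∧ ∀ b ∈ Γ, ∀ y, c (s y) b = i) ∨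
      ∀ d ∈ DA, ∀ b ∈ Γ, c d b ≠ i := by
  have key : ∀ J : Finset Co.{u}, ∃ Γ ⊆ TB, κ < #Γ ∧ ∀ i ∈ J,
      (∃ s : Ξ → O, StrictMono s ∧ (∀ y, s y ∈ TA) ∧ ∀ b ∈ Γ, ∀ y, c (s y) b = i) ∨
        ∀ d ∈ DA, ∀ b ∈ Γ, c d b ≠ i := fun J => by
    induction J using Finset.induction with
    | empty => exact ⟨TB, subset_rfl, H.lB, by simp⟩
    | insert i J _ ih =>
      obtain ⟨Γ, h1, h2, h3⟩ := ih
      suffices ∃ Γ' ⊆ Γ, κ < #Γ' ∧
          ((∃ s : Ξ → O, StrictMono s ∧ (∀ y, s y ∈ TA) ∧ ∀ b ∈ Γ', ∀ y, c (s y) b = i) ∨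
            ∀ d ∈ DA, ∀ b ∈ Γ', c d b ≠ i) by
        obtain ⟨Γ', g1, g2, g3⟩ := this
        exact ⟨Γ', g1.trans h1, g2, Finset.forall_mem_insert _ _ _ |>.2 ⟨g3, fun j hj =>
          (h3 j hj).imp (fun ⟨s, e1, e2, e3⟩ => ⟨s, e1, e2, fun b hb => e3 b (g1 hb)⟩)
            fun e d hd b hb => e d hd b (g1 hb)⟩⟩
      rcases H.adL i with h | h
      · obtain ⟨s, g1, g2, g3⟩ := (h.mono H.tA (h1.trans H.tB)).tops H.kap H.xi H.ini H.lA h2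
        exact ⟨_, fun _ hb => hb.1, g3, Or.inl ⟨s, g1, g2, fun _ hb => hb.2⟩⟩
      · exact ⟨_, sdiff_subset, H.kap.lgD h2 (H.kap.leU H.cA fun d : DA => h d (H.dA d.2)),
          Or.inr fun d hd b hb e => hb.2 (mem_iUnion.2 ⟨⟨d, hd⟩, H.tB (h1 hb.1), e⟩)⟩
  obtain ⟨Γ, h1, h2, h3⟩ := key Finset.univ
  exact ⟨Γ, h1, h2, fun i => h3 i (Finset.mem_univ i)⟩

omit [Nonempty Ξ] [WellFoundedLT Ξ] [WellFoundedLT O] in
/-- four blocks, one above the other -/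
theorem Ctx.blocks (H : Ctx κ Ξ c A B DA DB TA TB) {Γ : Set O} (hl : κ < #Γ) :
    ∃ G : ℕ → Set O, (∀ n, G n ⊆ Γ ∧ #(G n) ≤ κ ∧ (G n).Nonempty ∧
      ∀ b ∈ G n, Pos κ (flip c) DA b (G n)) ∧
      ∀ m n, m < n → ∀ x ∈ G m, ∀ y ∈ G n, x < y := by
  have key : ∀ N : Set O, ∃ G, #N ≤ κ → G ⊆ {x | x ∈ Γ ∧ ∀ n ∈ N, n < x} ∧ #G ≤ κ ∧ G.Nonempty ∧
      ∀ b ∈ G, Pos κ (flip c) DA b G := fun N => by
    by_cases e : #N ≤ κ
    · obtain ⟨G, hG⟩ := H.kap.block (flip c) H.cA (H.kap.above H.ini hl e)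
      exact ⟨G, fun _ => hG⟩
    · exact ⟨∅, fun h => absurd h e⟩
  choose f hf using key
  obtain ⟨U, hU0, hU1⟩ : ∃ U : ℕ → Set O, U 0 = ∅ ∧ ∀ n, U (n + 1) = U n ∪ f (U n) :=
    ⟨fun n => Nat.rec ∅ (fun _ V => V ∪ f V) n, rfl, fun _ => rfl⟩
  have hU : ∀ n : ℕ, #(U n) ≤ κ := fun n => by
    induction n with
    | zero => simp [hU0]
    | succ n ih => exact hU1 n ▸ H.kap.le2 ih (hf _ ih).2.1
  have hm : Monotone U := monotone_nat_of_le_succ fun n => hU1 n ▸ subset_union_left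
  exact ⟨fun n => f (U n), fun n => ⟨fun x hx => ((hf _ (hU n)).1 hx).1, (hf _ (hU n)).2⟩,
    fun m n e x hx y hy => ((hf _ (hU n)).1 hy).2 x (hm (Nat.succ_le_of_lt e) (hU1 m ▸ Or.inr hx))⟩

theorem Ctx.every (H : Ctx κ Ξ c A B DA DB TA TB) :
    #{a | a ∈ TA ∧ ∀ i, ¬ Rich κ Ξ c DB i a DA TB} ≤ κ := le_of_not_gt fun hl => by
  obtain ⟨Γ, h1, h2, h3⟩ := H.pre
  obtain ⟨G, hG, hG'⟩ := H.blocks h2
  have hc : #(⋃ n : ULift.{u} ℕ, G n.1) ≤ κ :=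
    H.kap.leU (by simpa using H.kap.inf) fun n => (hG n.1).2.1
  obtain ⟨a, ⟨ha, hr⟩, hn⟩ := H.kap.ne (H.kap.lgD hl (H.kap.leU hc fun b : ⋃ n : ULift.{u} ℕ, G n.1 =>
    H.kap.leU H.kap.co.le fun i => H.swap.two (a := b.1) (by
      obtain ⟨n, hn⟩ := mem_iUnion.1 b.2
      exact h1 ((hG n.1).1 hn)) i)).le
  choose X g1 g2 B' g3 g4 g5 using fun i => not_rich (hr i)
  have cov : ∀ n, ∀ b ∈ G n, ∃ i, ¬ Pos κ c DB a {x | x ∈ X i ∧ ¬ c x b = i} := fun n b hb => by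
    by_contra hp
    push Not at hp
    have e1 : ∀ i, ∃ j, j ≠ i ∧ ¬ Good κ Ξ (flip c) DB DA TA j b a := fun i => by
      obtain ⟨j, hj⟩ := (hp i).pig H.kap H.kap.co (r := fun j x => c x b = j) fun x _ => ⟨_, rfl⟩
      obtain ⟨x, hx⟩ := hj.ne H.kap
      have e : j ≠ i := fun e => hx.1.2 (hx.2.trans e)
      exact ⟨j, e, H.win (g1 i) (hj.mono fun _ hx => ⟨hx.1.1, hx.2⟩) (g3 i) (g4 i) e (g5 i)⟩
    have e2 : ∀ i, ∃ j, j ≠ i ∧ Good κ Ξ (flip c) DB DA TA j b a := fun i => by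
      by_contra e
      exact hn (mem_iUnion.2 ⟨⟨b, mem_iUnion.2 ⟨⟨n⟩, hb⟩⟩,
        mem_iUnion.2 ⟨i, ha, fun j hj hg => e ⟨j, hj, hg⟩⟩⟩)
    obtain ⟨i, -, hi⟩ := e1 ⟨0⟩
    obtain ⟨j, e, hj⟩ := e1 i
    obtain ⟨k, -, hk⟩ := e2 i
    obtain ⟨m, e', hm⟩ := e2 k
    exact e' (third k i j m e.symm (fun e => hi (e ▸ hk)) (fun e => hj (e ▸ hk))
      (fun e => hi (e ▸ hm)) fun e => hj (e ▸ hm))
  have cov' : ∀ b, ∃ i, (∃ n, b ∈ G n) → ¬ Pos κ c DB a {x | x ∈ X i ∧ ¬ c x b = i} := fun b => by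
    by_cases e : ∃ n, b ∈ G n
    · obtain ⟨n, hn⟩ := e
      exact (cov n b hn).imp fun i hi _ => hi
    · exact ⟨⟨0⟩, fun h => absurd h e⟩
  choose g hg using cov'
  choose β e1 e2 using fun n => H.kap.self (hG n).2.2.1 (hG n).2.2.2 g
  obtain ⟨m, n, hmn, e⟩ : ∃ m n, m < n ∧ g (β m) = g (β n) := by
    obtain ⟨m, n, e, e'⟩ := Finite.exists_ne_map_eq_of_infinite fun n => g (β n)
    rcases lt_or_gt_of_ne e with l | l
    exacts [⟨m, n, l, e'⟩, ⟨n, m, l, e'.symm⟩]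
  obtain ⟨t, f1, f2⟩ := exists_tall ((H.xi.lt H.kap).trans_le ((e2 n).card H.kap))
  set i := g (β m) with hi
  have f3 := (g2 i).all H.kap (ι := Option Ξ)
    (by rw [mk_option]; exact add_lt_of_lt H.kap.inf (H.xi.lt H.kap) (one_lt_aleph0.trans_le H.kap.inf))
    (r := fun o x => c x (o.elim (β m) t) = i) fun o => by
      cases o with
      | none => exact hg _ ⟨m, e1 m⟩
      | some y =>
        have := hg _ ⟨n, (f2 y).1⟩
        rwa [(f2 y).2, ← e] at this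
  rcases h3 i with ⟨s, f4, f5, f6⟩ | f4
  · refine H.fat (fun _ hx => g1 i hx.1) f4 f5 f1 (e2 m) f3 (fun _ hx => hx.2 none)
      (fun _ hx y => hx.2 (some y)) (fun z hz => f6 z ((hG m).1 hz.1))
      (fun y y' => f6 _ ((hG n).1 (f2 y').1) y) (fun z hz y => hG' m n hmn z hz.1 _ (f2 y).1)
      fun j hj t' _ f7 f8 => ?_
    obtain ⟨y⟩ := ‹Nonempty Ξ›
    have := hg _ ⟨m, (f7 y).1⟩
    rw [(f7 y).2] at this
    exact this (f8.mono fun x hx => ⟨hx.1.1, fun e => hj ((hx.2 y).symm.trans e)⟩)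
  · obtain ⟨x, hx⟩ := f3.ne H.kap
    exact f4 x (g1 i hx.1) _ ((hG m).1 (e1 m)) (hx.2 none)

end Pool.Agent.MP_c6cf52_lc.Sis

end

section

/-! All colours rich, two levels, and the rectangle with tops. -/

namespace Pool.Agent.MP_c6cf52_lc.Sis

open Cardinal Set

universe u

variable {κ : Cardinal.{u}} {O : Type u} {Ξ : Type u} [LinearOrder Ξ] [LinearOrder O]

variable {c : O → O → Co.{u}} {D X Y Z A B DA DB TA TB A' B' : Set O} {a b : O} {i j k : Co.{u}}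

theorem rich_all [Nonempty Ξ] (hk : Kap κ) (hD : #D ≤ κ) (q : Co.{u} → Prop)
    (h : ∀ a ∈ A', ∀ i, q i → Rich κ Ξ c D i a X B') (hX : ∀ a ∈ A', Pos κ c D a X)
    (hl : κ < #B') : ∃ B'' ⊆ B', κ < #B'' ∧
      ∀ a ∈ A', ∀ b ∈ B'', ∀ i, q i → Pos κ c D a {x | x ∈ X ∧ c x b = i} := by
  refine ⟨_, sdiff_subset, hk.lgD hl (hk.leU (hk.bx hD) fun p => hk.leU hk.co.le
    (f := fun i => {b | b ∈ B' ∧ q i ∧ (∃ a ∈ A', a ∈ bs c p) ∧
      #({x | x ∈ X ∧ c x b = i} ∩ bs c p : Set O) < κ}) fun i => ?_),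
    fun a ha b hb i hi p hp => le_of_not_gt fun e =>
      hb.2 (mem_iUnion.2 ⟨p, mem_iUnion.2 ⟨i, hb.1, hi, ⟨a, ha, hp⟩, e⟩⟩)⟩
  by_cases e : q i ∧ ∃ a ∈ A', a ∈ bs c p
  · obtain ⟨hi, a, ha, hp⟩ := e
    exact (mk_le_mk_of_subset fun b hb => And.intro hb.1 fun e => (e p hp).not_gt hb.2.2.2).trans
      ((h a ha i hi).pt (hX a ha))
  · exact (mk_le_mk_of_subset (t := ∅) fun b hb => e ⟨hb.2.1, hb.2.2.1⟩).trans (by simp)

omit [LinearOrder O] in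
theorem exists_ad (hA : κ < #A) (hB : κ < #B) (c : O → O → Co.{u}) :
    ∃ A' ⊆ A, ∃ B' ⊆ B, κ < #A' ∧ κ < #B' ∧ ∀ i, Alive κ c A' B' i ∨ Dead κ c A' B' i := by
  have key : ∀ J : Finset Co.{u}, ∃ A' ⊆ A, ∃ B' ⊆ B, κ < #A' ∧ κ < #B' ∧
      ∀ i ∈ J, Alive κ c A' B' i ∨ Dead κ c A' B' i := fun J => by
    induction J using Finset.induction with
    | empty => exact ⟨A, subset_rfl, B, subset_rfl, hA, hB, by simp⟩
    | insert i J _ ih =>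
      obtain ⟨A', h1, B', h2, h3, h4, h5⟩ := ih
      by_cases e : Alive κ c A' B' i
      · exact ⟨A', h1, B', h2, h3, h4, Finset.forall_mem_insert _ _ _ |>.2 ⟨Or.inl e, h5⟩⟩
      simp only [Alive, not_forall, not_exists, not_and, not_lt, exists_prop] at e
      obtain ⟨A₀, g1, g2, B₀, g3, g4, g5⟩ := e
      exact ⟨A₀, g1.trans h1, B₀, g3.trans h2, g2, g4, Finset.forall_mem_insert _ _ _ |>.2
        ⟨Or.inr g5, fun j hj => (h5 j hj).imp (·.mono g1 g3) (·.mono g1 g3)⟩⟩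
  obtain ⟨A', h1, B', h2, h3, h4, h5⟩ := key Finset.univ
  exact ⟨A', h1, B', h2, h3, h4, fun i => h5 i (Finset.mem_univ i)⟩

theorem exists_ctx (hk : Kap κ) (hx : Xi κ Ξ) (ini : ∀ a : O, #(Iic a) ≤ κ) (nw : ¬ Win κ Ξ c)
    (hA : κ < #A) (hB : κ < #B) (adL : ∀ i, Alive κ c A B i ∨ Dead κ c A B i)
    (adR : ∀ i, Alive κ (flip c) B A i ∨ Dead κ (flip c) B A i) :
    ∃ DA DB TA TB, Ctx κ Ξ c A B DA DB TA TB := by
  choose f h1 h2 h3 using exists_ch (O := O) κ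
  obtain ⟨E, hE, hc⟩ := hk.closure (fun s => (⋃ p : Bx κ s, f (A ∩ bs c p)) ∪
    ⋃ p : Bx κ s, f (B ∩ bs (flip c) p)) fun s hs =>
      hk.le2 (hk.leU (hk.bx hs.le) fun _ => h2 _) (hk.leU (hk.bx hs.le) fun _ => h2 _)
  have hD : ∀ S : Set O, #(E ∩ S : Set O) ≤ κ := fun S =>
    (mk_le_mk_of_subset inter_subset_left).trans hE
  have key : ∀ (c : O → O → Co.{u}) (A B : Set O),
      (∀ s ⊆ E, #s < κ → (⋃ p : Bx κ s, f (A ∩ bs c p)) ⊆ E) → ∀ a, Full κ c (E ∩ B) A a →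
        Pos κ c (E ∩ B) a (E ∩ A) := fun c A B hc a ha p hp => by
    let p' : Bx κ (⋃ i, (p i).1) := fun i => ⟨(p i).1, subset_iUnion (fun i => (p i).1) i, (p i).2.2⟩
    exact (h3 _ (ha p hp).le).trans (mk_le_mk_of_subset fun x hx =>
      ⟨⟨hc _ (iUnion_subset fun i => (p i).2.1.trans inter_subset_left)
        (hk.ltU hk.co fun i => (p i).2.2) (mem_iUnion.2 ⟨p', hx⟩), (h1 _ hx).1⟩, (h1 _ hx).2⟩)
  exact ⟨E ∩ A, E ∩ B, _, _, hk, hx, ini, nw, adL, adR, hD A, hD B, inter_subset_right,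
    inter_subset_right, fun _ h => h.1.1, fun _ h => h.1.1,
    hk.above ini (hk.full c (hD B) hA) hE, hk.above ini (hk.full (flip c) (hD A) hB) hE,
    fun d hd a ha => ha.2 d hd.1, fun d hd a ha => ha.2 d hd.1,
    fun a ha => key c A B (fun s hs hl => subset_union_left.trans (hc s hs hl)) a ha.1.2,
    fun a ha => key (flip c) B A (fun s hs hl => subset_union_right.trans (hc s hs hl)) a ha.1.2⟩

variable [WellFoundedLT Ξ] [WellFoundedLT O] [Nonempty Ξ]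

theorem Ctx.other (H : Ctx κ Ξ c A B DA DB TA TB) (hB : B' ⊆ TB)
    (hg : ∀ b ∈ B', Good κ Ξ (flip c) DB DA TA i b a) (hk : i ≠ k) :
    Rich κ Ξ c DB k a DA B' := by_contra fun h => by
  obtain ⟨X, g1, g2, B₀, g3, g4, g5⟩ := not_rich h
  obtain ⟨b, hb, hp⟩ := H.kap.ne ((H.rich g1 (g3.trans hB) g5 hk).pts H.kap g2 g4).le
  exact H.win g1 hp (g3.trans hB) g4 hk g5 (hg b (g3 hb))

/-- passing richness to the other side -/
theorem Ctx.pass (H : Ctx κ Ξ c A B DA DB TA TB) (hA : A' ⊆ TA) (hB : B' ⊆ TB) (hl : κ < #B')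
    (q : Co.{u} → Prop) (h : ∀ a ∈ A', ∀ i, q i → Rich κ Ξ c DB i a DA B') :
    ∃ B'' ⊆ B', κ < #B'' ∧ ∀ b ∈ B'', ∀ i, q i → ∀ k, i ≠ k →
      Rich κ Ξ (flip c) DA k b DB A' := by
  obtain ⟨B'', h1, h2, h3⟩ := rich_all H.kap H.cB q h (fun a ha => H.pA a (hA ha)) hl
  exact ⟨B'', h1, h2, fun b hb i hi k hk => H.swap.other hA (fun a ha =>
    ⟨_, fun _ hx => hx.1, h3 a ha b hb i hi, fun _ hx => hx.2, B', hB, hl,
      (h a ha i hi).mono (fun _ hx => hx.1) subset_rfl⟩) hk⟩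

theorem Ctx.phi (H : Ctx κ Ξ c A B DA DB TA TB) : ∃ A' ⊆ TA, ∃ B' ⊆ TB, κ < #A' ∧ κ < #B' ∧
    ∀ a ∈ A', ∀ i, Rich κ Ξ c DB i a DA B' ∧
      ∀ b ∈ B', Pos κ c DB a {x | x ∈ DA ∧ c x b = i} := by
  obtain ⟨i, hi⟩ := H.kap.pig H.kap.co.le (H.kap.lgD H.lA H.every)
    (r := fun i a => Rich κ Ξ c DB i a DA TB) fun a ha => by_contra fun e =>
      ha.2 ⟨ha.1, fun i hi => e ⟨i, hi⟩⟩
  obtain ⟨A₁, e1, e2, e3⟩ : ∃ A₁ ⊆ TA, κ < #A₁ ∧ ∀ a ∈ A₁, Rich κ Ξ c DB i a DA TB :=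
    ⟨_, fun _ ha => ha.1.1, hi, fun _ ha => ha.2⟩
  obtain ⟨B₁, h1, h2, h3⟩ := H.pass e1 subset_rfl H.lB (· = i) fun a ha j e => e ▸ e3 a ha
  obtain ⟨A₂, g1, g2, g3⟩ := H.swap.pass h1 e1 e2 (i ≠ ·)
    fun b hb k hk => h3 b hb i rfl k hk
  have g4 : ∀ a ∈ A₂, ∀ m, Rich κ Ξ c DB m a DA B₁ := fun a ha m => by
    obtain ⟨k, e1, e2⟩ := ex_third i m
    exact g3 a ha k e1.symm m e2
  obtain ⟨B₂, f1, f2, f3⟩ := rich_all H.kap H.cB (fun _ => True) (fun a ha m _ => g4 a ha m)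
    (fun a ha => H.pA a (e1 (g1 ha))) h2
  exact ⟨A₂, g1.trans e1, B₂, f1.trans h1, g2, f2, fun a ha m =>
    ⟨(g4 a ha m).mono subset_rfl f1, fun b hb => f3 a ha b hb m trivial⟩⟩

/-- a set with large common neighbourhoods in all colours -/
theorem Ctx.wide (H : Ctx κ Ξ c A B DA DB TA TB) : ∃ W ⊆ A, #W = Order.succ (3 * #Ξ) ∧
    ∀ i, κ < #{b | b ∈ B ∧ ∀ w ∈ W, c w b = i} := by
  obtain ⟨A', h1, B', h2, h3, h4, h5⟩ := H.phi
  obtain ⟨a, ha⟩ := H.kap.ne h3.le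
  have hl := H.kap.lgD h4 (H.kap.leU (H.kap.sm H.cA) fun W => H.kap.leU H.kap.co.le
    (f := fun i => {b | b ∈ {b | b ∈ B ∧ ∀ w ∈ W.1, c w b = i} ∧
      #{b | b ∈ B ∧ ∀ w ∈ W.1, c w b = i} ≤ κ}) fun i => by
      by_cases e : #{b | b ∈ B ∧ ∀ w ∈ W.1, c w b = i} ≤ κ
      · exact (mk_le_mk_of_subset fun _ hb => hb.1).trans e
      · simp [e])
  have key : ∀ J : Finset Co.{u}, ∃ X ⊆ DA, Pos κ c DB a X ∧ ∀ i ∈ J, ∃ b ∈ B' \ _,
      ∀ x ∈ X, c x b = i := fun J => by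
    induction J using Finset.induction with
    | empty => exact ⟨DA, subset_rfl, H.pA a (h1 ha), by simp⟩
    | insert i J _ ih =>
      obtain ⟨X, g1, g2, g3⟩ := ih
      obtain ⟨b, hb, hp⟩ := H.kap.ne (((h5 a ha i).1.mono g1 sdiff_subset).pts H.kap g2 hl).le
      exact ⟨_, fun _ hx => g1 hx.1, hp, Finset.forall_mem_insert _ _ _ |>.2
        ⟨⟨b, hb, fun _ hx => hx.2⟩, fun j hj =>
          (g3 j hj).imp fun b hb => ⟨hb.1, fun x hx => hb.2 x hx.1⟩⟩⟩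
  obtain ⟨X, g1, g2, g3⟩ := key Finset.univ
  obtain ⟨W, g4, g5⟩ := le_mk_iff_exists_subset.1 ((H.xi.sig H.kap).le.trans (g2.card H.kap))
  refine ⟨W, (g4.trans g1).trans H.dA, g5, fun i => lt_of_not_ge fun e => ?_⟩
  obtain ⟨b, hb, g6⟩ := g3 i (Finset.mem_univ i)
  exact hb.2 (mem_iUnion.2 ⟨⟨W, g4.trans g1, g5.trans_lt (H.xi.sig H.kap)⟩,
    mem_iUnion.2 ⟨i, ⟨H.tB (h2 hb.1), fun w hw => g6 w (g4 hw)⟩, e⟩⟩)

theorem win (hk : Kap κ) (hx : Xi κ Ξ) (ini : ∀ a : O, #(Iic a) ≤ κ) (hO : κ < #O)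
    (c : O → O → Co.{u}) : Win κ Ξ c := by_contra fun nw => by
  have hu : κ < #(univ : Set O) := by simpa using hO
  obtain ⟨A₀, -, B₀, -, e1, e2, e3⟩ := exists_ad hu hu c
  obtain ⟨B, e4, A, e5, e6, e7, adR⟩ := exists_ad e2 e1 (flip c)
  have adL := fun i => (e3 i).imp (·.mono e5 e4) (·.mono e5 e4)
  obtain ⟨DA, DB, TA, TB, H⟩ := exists_ctx hk hx ini nw e7 e6 adL adR
  obtain ⟨A', h1, B', h2, h3, h4, h5⟩ := H.phi
  have sA := h1.trans H.tA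
  have sB := h2.trans H.tB
  obtain ⟨_, _, _, _, H'⟩ := exists_ctx hk hx ini nw h3 h4
    (fun i => (adL i).imp (·.mono sA sB) (·.mono sA sB))
    fun i => (adR i).imp (·.mono sB sA) (·.mono sB sA)
  obtain ⟨W, g1, g2, g3⟩ := H'.wide
  obtain ⟨b, hb⟩ := hk.ne h4.le
  obtain ⟨i, -, s, f1, f2, f3⟩ := (H.pB b (h2 hb)).tall hx hk (g2.trans_lt (hx.sig hk))
    (fun _ => True) fun x _ => by simp [g2]
  obtain ⟨y⟩ := ‹Nonempty Ξ›
  obtain ⟨t, f4, f5, f6⟩ := ((h5 _ (g1 (f2 y)) i).1.mono (fun _ hx => hx.1) fun _ hb => hb.1).ex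
    ((h5 _ (g1 (f2 y)) i).2 b hb) (g3 i)
  exact H.fin (fun _ hx => hx.1.1) (fun _ hx => hx.1) f1 (fun y => h1 (g1 (f2 y))) f4
    (fun y => h2 (f5 y).1) f6 f3 (fun _ hx => hx.1.2) (fun _ hz => hz.2 y) (fun _ hx => hx.2)
    (fun _ hz => hz.2) fun y y' => (f5 y').2 _ (f2 y)

end Pool.Agent.MP_c6cf52_lc.Sis

end

section

/-! Passage to order types. -/

namespace Pool.Agent.MP_c6cf52_lc.Sis

open Cardinal Set

universe u

variable {κ : Cardinal.{u}}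

theorem kap_of (hκ : ℵ₀ ≤ κ) (hpow : κ ^< κ = κ) : Kap κ :=
  ⟨⟨hκ, le_of_not_gt fun e => (lt_power_cof_ord hκ).not_ge ((le_powerlt κ e).trans hpow.le)⟩,
    fun _ e => (le_powerlt κ e).trans hpow.le⟩

theorem xi_of (hκ : ℵ₀ ≤ κ) {ξ : Ordinal.{u}} (hξ : ∀ θ, Order.succ θ < κ → θ ^ ξ.card < κ) :
    Xi κ (ξ + 1).ToType := fun θ e => by
  rw [mk_toType, Ordinal.card_add, Ordinal.card_one, power_add, power_one]
  exact mul_lt_of_lt hκ (hξ θ e) ((Order.lt_succ θ).trans e)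

theorem exists_otp {O : Type u} [LinearOrder O] [WellFoundedLT O] {ξ : Ordinal.{u}} {X : Set O}
    {s : (ξ + 1).ToType → O} (hX : κ ≤ #X) (hs : StrictMono s) (h : ∀ a ∈ X, ∀ y, a < s y) :
    ∃ A ⊆ X ∪ range s, Ordinal.type (α := A) (· < ·) = κ.ord + ξ := by
  obtain ⟨f, hf, hf'⟩ := exists_mono (Ξ := κ.ord.ToType) (S := X)
    (by rw [Ordinal.type_toType]; exact ord_le_ord.2 hX)
  obtain ⟨g⟩ := (Ordinal.type_le_iff' (r := fun x y : (κ.ord + ξ).ToType => x < y)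
    (s := Sum.Lex (fun x y : κ.ord.ToType => x < y) fun x y : (ξ + 1).ToType => x < y)).1 (by
      rw [Ordinal.type_sum_lex, Ordinal.type_toType, Ordinal.type_toType, Ordinal.type_toType,
        ← add_assoc]
      exact le_self_add)
  have hm : StrictMono fun x => Sum.elim f s (g x) := fun x y e => by
    have := g.map_rel_iff.2 e
    beta_reduce
    generalize g x = p at this ⊢
    generalize g y = q at this ⊢
    cases this with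
    | inl e => exact hf e
    | inr e => exact hs e
    | sep a b => exact h _ (hf' a) b
  refine ⟨range fun x => Sum.elim f s (g x), ?_, ?_⟩
  · rintro _ ⟨x, rfl⟩
    beta_reduce
    cases g x with
    | inl a => exact Or.inl (hf' a)
    | inr b => exact Or.inr ⟨b, rfl⟩
  · exact (Ordinal.type_eq.2 ⟨(hm.orderIso _).symm.toRelIsoLT⟩).trans (Ordinal.type_toType _)

theorem sis (hκ : ℵ₀ ≤ κ) (hpow : κ ^< κ = κ) {ξ : Ordinal.{u}}
    (hξ : ∀ θ, Order.succ θ < κ → θ ^ ξ.card < κ)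
    (c : (Order.succ κ).ord.ToType → (Order.succ κ).ord.ToType → Fin 3) :
    ∃ A B : Set (Order.succ κ).ord.ToType, Ordinal.type (α := A) (· < ·) = κ.ord + ξ ∧
      Ordinal.type (α := B) (· < ·) = κ.ord + ξ ∧ ∃ i, ∀ a ∈ A, ∀ b ∈ B, c a b = i := by
  have hk := kap_of hκ hpow
  have : Nonempty (ξ + 1).ToType := Ordinal.nonempty_toType_iff.2 (by simp)
  obtain ⟨i, X, Y, s, t, h1, h2, h3, h4, h5, h6, h7⟩ := win hk (xi_of hκ hξ)
    (O := (Order.succ κ).ord.ToType) (fun a => by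
      rw [← Iio_union_right]
      exact hk.le2 (Order.lt_succ_iff.1 (iio_lt a)) (hk.fin (finite_singleton a)).le)
    (by simp) fun a b => ⟨c a b⟩
  obtain ⟨A, g1, g2⟩ := exists_otp h1 h3 h5
  obtain ⟨B, g3, g4⟩ := exists_otp h2 h4 h6
  exact ⟨A, B, g2, g4, i.1, fun a ha b hb => congrArg ULift.down (h7 a (g1 ha) b (g3 hb))⟩

/-! The hypothesis on the ordinal holds in the following cases. -/

theorem hyp_finite (hκ : ℵ₀ ≤ κ) (n : ℕ) (θ : Cardinal.{u}) (h : Order.succ θ < κ) :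
    θ ^ (n : Ordinal.{u}).card < κ := by
  rw [Ordinal.card_nat, power_natCast]
  induction n with
  | zero => simpa using one_lt_aleph0.trans_le hκ
  | succ n ih => rw [pow_succ]; exact mul_lt_of_lt hκ ih ((Order.lt_succ θ).trans h)

theorem hyp_inaccessible (hκ : κ.IsInaccessible) {ξ : Ordinal.{u}} (hξ : ξ < κ.ord)
    (θ : Cardinal.{u}) (h : Order.succ θ < κ) : θ ^ ξ.card < κ := by
  have hi := hκ.isRegular.aleph0_le
  refine lt_of_le_of_lt (power_le_power_right (cantor θ).le) ?_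
  rw [← power_mul]
  exact hκ.isStrongLimit.isStrongPrelimit
    (mul_lt_of_lt hi ((Order.lt_succ θ).trans h) (lt_ord.1 hξ))

theorem hyp_gch (hκ : ℵ₀ ≤ κ) (hg : ∀ θ < κ, ℵ₀ ≤ θ → 2 ^ θ = Order.succ θ) {ξ : Ordinal.{u}}
    (hξ : Order.succ ξ.card < κ) (θ : Cardinal.{u}) (h : Order.succ θ < κ) : θ ^ ξ.card < κ := by
  by_cases e : max θ ξ.card < ℵ₀
  · exact (power_lt_aleph0 (max_lt_iff.1 e).1 (max_lt_iff.1 e).2).trans_le hκ
  have e' : Order.succ (max θ ξ.card) < κ := by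
    rcases max_choice θ ξ.card with r | r <;> rwa [r]
  refine lt_of_le_of_lt ?_ e'
  rw [← hg _ ((Order.lt_succ _).trans e') (not_lt.1 e), ← power_self_eq (not_lt.1 e)]
  exact (power_le_power_right (le_max_left _ _)).trans
    (power_le_power_left (aleph0_pos.trans_le (not_lt.1 e)).ne' (le_max_right _ _))

end Pool.Agent.MP_c6cf52_lc.Sis

end
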